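import Pool.Agent.N139.MS.Stm

/-!
# Project MS: almost invariant vectors stay almost invariant under the inverse (INV)
-/

set_option autoImplicit false

namespace Pool.Agent.N123.MS

open Filter Topology Matrix
open Pool.Agent.N139.MS

noncomputable section

section basic

variable {H : Type} [NormedAddCommGroup H] [InnerProductSpace ℂ H] [CompleteSpace H]

lemma nrm (u : unitary (H →L[ℂ] H)) (v : H) : ‖(u : H →L[ℂ] H) v‖ = ‖v‖ :=
  ContinuousLinearMap.norm_map_of_mem_unitary u.2 v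

lemma act_mul (a b : unitary (H →L[ℂ] H)) (v : H) :
    ((a * b : unitary (H →L[ℂ] H)) : H →L[ℂ] H) v = (a : H →L[ℂ] H) ((b : H →L[ℂ] H) v) := rfl

lemma act_inv (a : unitary (H →L[ℂ] H)) (v : H) :
    ((a⁻¹ : unitary (H →L[ℂ] H)) : H →L[ℂ] H) ((a : H →L[ℂ] H) v) = v := by
  rw [← act_mul, inv_mul_cancel]
  rfl

lemma act_inv' (a : unitary (H →L[ℂ] H)) (v : H) :
    (a : H →L[ℂ] H) (((a⁻¹ : unitary (H →L[ℂ] H)) : H →L[ℂ] H) v) = v := by
  rw [← act_mul, mul_inv_cancel]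
  rfl

variable {k : ℕ} (ρ : FreeGroup (Fin k) →* unitary (H →L[ℂ] H))

lemma E_nonneg (v : H) : 0 ≤ E ρ v := Finset.sum_nonneg fun _ _ => by positivity

lemma le_sqrt_E (s : Fin k) (v : H) :
    ‖(ρ (FreeGroup.of s) : H →L[ℂ] H) v - v‖ ≤ Real.sqrt (E ρ v) := by
  refine Real.le_sqrt_of_sq_le ?_
  exact Finset.single_le_sum (f := fun s => ‖(ρ (FreeGroup.of s) : H →L[ℂ] H) v - v‖ ^ 2)
    (fun _ _ => by positivity) (Finset.mem_univ s)

lemma E_le (v : H) : E ρ v ≤ 4 * k * ‖v‖ ^ 2 := by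
  unfold E
  have h : ∀ s ∈ (Finset.univ : Finset (Fin k)),
      ‖(ρ (FreeGroup.of s) : H →L[ℂ] H) v - v‖ ^ 2 ≤ 4 * ‖v‖ ^ 2 := by
    intro s _
    have h1 := norm_sub_le ((ρ (FreeGroup.of s) : H →L[ℂ] H) v) v
    rw [nrm] at h1
    have h2 := norm_nonneg ((ρ (FreeGroup.of s) : H →L[ℂ] H) v - v)
    nlinarith [norm_nonneg v]
  refine (Finset.sum_le_sum h).trans ?_
  rw [Finset.sum_const, Finset.card_univ, Fintype.card_fin, nsmul_eq_mul]
  exact le_of_eq (by ring)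

lemma E_add3 (a b c : H) : E ρ (a + b + c) ≤ 3 * (E ρ a + E ρ b + E ρ c) := by
  unfold E
  rw [← Finset.sum_add_distrib, ← Finset.sum_add_distrib, Finset.mul_sum]
  refine Finset.sum_le_sum fun s _ => ?_
  set u := (ρ (FreeGroup.of s) : H →L[ℂ] H)
  have h1 : u (a + b + c) - (a + b + c) = (u a - a) + (u b - b) + (u c - c) := by
    rw [map_add, map_add]
    abel
  rw [h1]
  have h2 := norm_add₃_le (a := u a - a) (b := u b - b) (c := u c - c)
  have h3 := norm_nonneg ((u a - a) + (u b - b) + (u c - c))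
  have h4 : ‖(u a - a) + (u b - b) + (u c - c)‖ ^ 2 ≤
      (‖u a - a‖ + ‖u b - b‖ + ‖u c - c‖) ^ 2 := pow_le_pow_left₀ h3 h2 2
  nlinarith [sq_nonneg (‖u a - a‖ - ‖u b - b‖), sq_nonneg (‖u a - a‖ - ‖u c - c‖),
    sq_nonneg (‖u b - b‖ - ‖u c - c‖)]

end basic

lemma word {k : ℕ} (w : FreeGroup (Fin k)) : ∃ N : ℝ, 0 ≤ N ∧
    ∀ (H : Type) [NormedAddCommGroup H] [InnerProductSpace ℂ H] [CompleteSpace H]
      (ρ : FreeGroup (Fin k) →* unitary (H →L[ℂ] H)) (v : H),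
      ‖(ρ w : H →L[ℂ] H) v - v‖ ≤ N * Real.sqrt (E ρ v) := by
  induction w using FreeGroup.induction_on with
  | C1 =>
    refine ⟨0, le_rfl, fun H _ _ _ ρ v => ?_⟩
    rw [map_one]
    have h : (((1 : unitary (H →L[ℂ] H)) : H →L[ℂ] H)) v = v := rfl
    rw [h, sub_self, norm_zero, zero_mul]
  | of s =>
    refine ⟨1, zero_le_one, fun H _ _ _ ρ v => ?_⟩
    rw [one_mul]
    exact le_sqrt_E ρ s v
  | inv_of s _ =>
    refine ⟨1, zero_le_one, fun H _ _ _ ρ v => ?_⟩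
    rw [one_mul, map_inv]
    have h1 := nrm (ρ (FreeGroup.of s))
      ((((ρ (FreeGroup.of s))⁻¹ : unitary (H →L[ℂ] H)) : H →L[ℂ] H) v - v)
    rw [map_sub, act_inv'] at h1
    rw [← h1, norm_sub_rev]
    exact le_sqrt_E ρ s v
  | mul x y hx hy =>
    obtain ⟨N, hN, h1⟩ := hx
    obtain ⟨M, hM, h2⟩ := hy
    refine ⟨N + M, add_nonneg hN hM, fun H _ _ _ ρ v => ?_⟩
    rw [map_mul, act_mul]
    have h3 : (ρ x : H →L[ℂ] H) ((ρ y : H →L[ℂ] H) v) - v =
        (ρ x : H →L[ℂ] H) ((ρ y : H →L[ℂ] H) v - v) + ((ρ x : H →L[ℂ] H) v - v) := by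
      rw [map_sub]
      abel
    rw [h3]
    refine (norm_add_le _ _).trans ?_
    rw [nrm]
    have := h1 H ρ v
    have := h2 H ρ v
    linarith

theorem t_INV (hG : S_GAP) (hR : S_ROT) : S_INV := by
  intro K _ k γ hT hγ ws ε hε
  obtain ⟨c, hc, δf, Rf, hδf, hRf, hV⟩ := hG K k γ hT hγ
  choose Nw hNw0 hNw using fun s => word (ws s)
  set N : ℝ := ∑ s, Nw s with hN
  have hN0 : 0 ≤ N := Finset.sum_nonneg fun s _ => hNw0 s
  have hNs : ∀ s, Nw s ≤ N := fun s =>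
    Finset.single_le_sum (fun s _ => hNw0 s) (Finset.mem_univ s)
  have hk0 : (0:ℝ) ≤ k := Nat.cast_nonneg k
  set q : ℝ := k / c * (1 + N) ^ 2 with hq
  have hq0 : 0 ≤ q := by positivity
  set M : ℝ := 1 + q + 4 * k * q + 4 * k / c with hM
  have hM1 : 1 ≤ M := by
    have h1 : 0 ≤ 4 * k * q := by positivity
    have h2 : 0 ≤ 4 * k / c := by positivity
    linarith
  have hM0 : 0 < M := by linarith
  set η : ℝ := min (ε / (3 * M)) (1 / (2 * M)) with hη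
  have hη0 : 0 < η := lt_min (by positivity) (by positivity)
  have hη1 : 3 * (M * η) ≤ ε := by
    have : η ≤ ε / (3 * M) := min_le_left _ _
    rw [le_div_iff₀ (by positivity)] at this
    linarith
  have hη2 : M * η ≤ 1 / 2 := by
    have : η ≤ 1 / (2 * M) := min_le_right _ _
    rw [le_div_iff₀ (by positivity)] at this
    linarith
  have hη3 : η ≤ 1 := by nlinarith
  set τ : ℝ := Real.sqrt η with hτ
  have hτ0 : 0 < τ := Real.sqrt_pos.2 hη0
  have hτ2 : τ ^ 2 = η := Real.sq_sqrt hη0.le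
  have hτ1 : τ ≤ 1 := by
    rw [hτ]
    exact Real.sqrt_le_one.2 hη3
  refine ⟨min (δf η) η, lt_min (hδf η hη0) hη0, Rf η, hRf η, ?_⟩
  intro H _ _ _ _ ρ T hρ hTρ x hx
  obtain ⟨V, hV1, hV2⟩ := hV H ρ
  have hV3 := hV2 η hη0 fun w hw v => (hρ w hw v).trans
    (mul_le_mul_of_nonneg_right (min_le_left _ _) (norm_nonneg v))
  -- the first step
  set e1 : ℝ := Real.sqrt (k / c) * ((1 + N) * τ) with he1
  have he10 : 0 ≤ e1 := by positivity
  have he12 : e1 ^ 2 = q * η := by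
    rw [he1, mul_pow, Real.sq_sqrt (by positivity), mul_pow, hτ2, hq]
    ring
  have he1M : e1 ^ 2 ≤ 1 / 2 := by
    rw [he12]
    refine le_trans ?_ hη2
    refine mul_le_mul_of_nonneg_right ?_ hη0.le
    have h1 : 0 ≤ 4 * k * q := by positivity
    have h2 : 0 ≤ 4 * k / c := by positivity
    linarith
  have he11 : e1 < 1 := by nlinarith
  have step1 : ∀ v ∈ V, ‖(T : H →L[ℂ] H) v - V.starProjection ((T : H →L[ℂ] H) v)‖ ≤
      e1 * ‖v‖ := by
    intro v hv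
    have h1 := hV3 v hv
    have h2 : Real.sqrt (E ρ v) ≤ τ * ‖v‖ := by
      refine (Real.sqrt_le_sqrt h1).trans (le_of_eq ?_)
      rw [Real.sqrt_mul hη0.le, Real.sqrt_sq (norm_nonneg v)]
    have h3 : ∀ s, ‖(ρ (FreeGroup.of s) : H →L[ℂ] H) ((T : H →L[ℂ] H) v) -
        (T : H →L[ℂ] H) v‖ ≤ (1 + N) * τ * ‖v‖ := by
      intro s
      have h4 := nrm T⁻¹ ((ρ (FreeGroup.of s) : H →L[ℂ] H) ((T : H →L[ℂ] H) v) -
        (T : H →L[ℂ] H) v)
      rw [map_sub, act_inv] at h4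
      rw [← h4]
      have h5 := hTρ s v
      rw [act_mul, act_mul] at h5
      have h6 := hNw s H ρ v
      have h7 : ((T⁻¹ : unitary (H →L[ℂ] H)) : H →L[ℂ] H) ((ρ (FreeGroup.of s) : H →L[ℂ] H)
          ((T : H →L[ℂ] H) v)) - v = (((T⁻¹ : unitary (H →L[ℂ] H)) : H →L[ℂ] H)
          ((ρ (FreeGroup.of s) : H →L[ℂ] H) ((T : H →L[ℂ] H) v)) - (ρ (ws s) : H →L[ℂ] H) v) +
          ((ρ (ws s) : H →L[ℂ] H) v - v) := by abel
      rw [h7]
      refine (norm_add_le _ _).trans ?_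
      have h8 : min (δf η) η * ‖v‖ ≤ τ * ‖v‖ := by
        refine mul_le_mul_of_nonneg_right ((min_le_right _ _).trans ?_) (norm_nonneg v)
        rw [← hτ2]
        nlinarith
      have h9 : Nw s * Real.sqrt (E ρ v) ≤ N * (τ * ‖v‖) :=
        mul_le_mul (hNs s) h2 (Real.sqrt_nonneg _) hN0
      linarith
    have h4 : E ρ ((T : H →L[ℂ] H) v) ≤ k * ((1 + N) * τ * ‖v‖) ^ 2 := by
      unfold E
      refine (Finset.sum_le_sum fun s _ => pow_le_pow_left₀ (norm_nonneg _) (h3 s) 2).trans ?_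
      rw [Finset.sum_const, Finset.card_univ, Fintype.card_fin, nsmul_eq_mul]
    have h5 := (hV1 ((T : H →L[ℂ] H) v)).trans h4
    have h6 : ‖(T : H →L[ℂ] H) v - V.starProjection ((T : H →L[ℂ] H) v)‖ ^ 2 ≤
        (e1 * ‖v‖) ^ 2 := by
      have h7 : (e1 * ‖v‖) ^ 2 = k * ((1 + N) * τ * ‖v‖) ^ 2 / c := by
        rw [mul_pow, he12, hq, ← hτ2]
        field_simp
      rw [h7, le_div_iff₀ hc]
      linarith
    exact (pow_le_pow_iff_left₀ (norm_nonneg _) (by positivity) two_ne_zero).1 h6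
  have step2 := hR H V T e1 he11 step1
  -- the last step
  set v := V.starProjection x with hv
  have hvV : v ∈ V := V.starProjection_apply_mem x
  have hvx : ‖v‖ ≤ ‖x‖ := V.norm_starProjection_apply_le x
  have hxv : ‖x - v‖ ^ 2 ≤ η / c * ‖x‖ ^ 2 := by
    have h1 := (hV1 x).trans hx
    have h2 : min (δf η) η * ‖x‖ ^ 2 ≤ η * ‖x‖ ^ 2 :=
      mul_le_mul_of_nonneg_right (min_le_right _ _) (by positivity)
    rw [div_mul_eq_mul_div, le_div_iff₀ hc]
    linarith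
  set Ti : H →L[ℂ] H := ((T⁻¹ : unitary (H →L[ℂ] H)) : H →L[ℂ] H) with hTi
  have hdec : Ti x = V.starProjection (Ti v) + (Ti v - V.starProjection (Ti v)) + Ti (x - v) := by
    rw [map_sub]
    abel
  rw [hdec]
  refine (E_add3 ρ _ _ _).trans ?_
  have hA : E ρ (V.starProjection (Ti v)) ≤ η * ‖x‖ ^ 2 := by
    refine (hV3 _ (V.starProjection_apply_mem _)).trans ?_
    have h1 : ‖V.starProjection (Ti v)‖ ≤ ‖x‖ := by
      refine (V.norm_starProjection_apply_le _).trans ?_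
      rw [hTi, nrm]
      exact hvx
    exact mul_le_mul_of_nonneg_left (pow_le_pow_left₀ (norm_nonneg _) h1 2) hη0.le
  have hB : E ρ (Ti v - V.starProjection (Ti v)) ≤ 4 * k * (q * η) * ‖x‖ ^ 2 := by
    refine (E_le ρ _).trans ?_
    have h1 : ‖Ti v - V.starProjection (Ti v)‖ ^ 2 ≤ (q * η) * ‖x‖ ^ 2 := by
      have h2 : ‖Ti v - V.starProjection (Ti v)‖ ≤ e1 * ‖x‖ :=
        (step2 v hvV).trans (mul_le_mul_of_nonneg_left hvx he10)
      have h3 := pow_le_pow_left₀ (norm_nonneg _) h2 2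
      rwa [mul_pow, he12] at h3
    calc 4 * (k:ℝ) * ‖Ti v - V.starProjection (Ti v)‖ ^ 2 ≤ 4 * k * ((q * η) * ‖x‖ ^ 2) :=
          mul_le_mul_of_nonneg_left h1 (by positivity)
      _ = _ := by ring
  have hC : E ρ (Ti (x - v)) ≤ 4 * k / c * η * ‖x‖ ^ 2 := by
    refine (E_le ρ _).trans ?_
    rw [hTi, nrm]
    calc 4 * (k:ℝ) * ‖x - v‖ ^ 2 ≤ 4 * k * (η / c * ‖x‖ ^ 2) :=
          mul_le_mul_of_nonneg_left hxv (by positivity)
      _ = _ := by ring
  have hsum : 3 * (E ρ (V.starProjection (Ti v)) + E ρ (Ti v - V.starProjection (Ti v)) +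
      E ρ (Ti (x - v))) ≤ 3 * (M * η) * ‖x‖ ^ 2 := by
    have h1 : 3 * (M * η) * ‖x‖ ^ 2 = 3 * (η * ‖x‖ ^ 2 + q * η * ‖x‖ ^ 2 +
      4 * k * (q * η) * ‖x‖ ^ 2 + 4 * k / c * η * ‖x‖ ^ 2) := by
      rw [hM]
      ring
    have h2 : 0 ≤ q * η * ‖x‖ ^ 2 := by positivity
    linarith
  exact hsum.trans (mul_le_mul_of_nonneg_right hη1 (by positivity))

end

end Pool.Agent.N123.MS
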